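import Pool.Agent.V8H88.GO.Cst

/-!
# Tensor powers given by words; subquotients and matrix coefficients
-/

set_option autoImplicit false

namespace Pool.Agent.V8H88.UV

open Matrix Pool.Agent.V8H88.GO

/-- the index set of a tensor power -/
def Idx (n : Type) : List Bool → Type
  | [] => Unit
  | _ :: w => n × Idx n w

/-- the index set is finite -/
@[instance_reducible] def finIdx (n : Type) [Fintype n] : (w : List Bool) → Fintype (Idx n w)
  | [] => inferInstanceAs (Fintype Unit)
  | _ :: w => @instFintypeProd n (Idx n w) _ (finIdx n w)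

instance (n : Type) [Fintype n] (w : List Bool) : Fintype (Idx n w) := finIdx n w

/-- the index set has decidable equality -/
@[instance_reducible] def decIdx (n : Type) [DecidableEq n] : (w : List Bool) → DecidableEq (Idx n w)
  | [] => inferInstanceAs (DecidableEq Unit)
  | _ :: w => @instDecidableEqProd n (Idx n w) _ (decIdx n w)

instance (n : Type) [DecidableEq n] (w : List Bool) : DecidableEq (Idx n w) := decIdx n w

section

variable {k Γ n : Type} [Field k] [Group Γ] [Fintype n] [DecidableEq n]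

/-- The tensor product of copies of `V` (for the letters `true` of the word) and of the dual of `V` (for
the letters `false`). -/
def tpw (V : Γ →* Matrix n n k) : (w : List Bool) → (Γ →* Matrix (Idx n w) (Idx n w) k)
  | [] => trivialRep k Γ
  | true :: w => tensor V (tpw V w)
  | false :: w => tensor (dual V) (tpw V w)

theorem tpw_true (V : Γ →* Matrix n n k) (w : List Bool) (g : Γ) (i j : n) (i' j' : Idx n w) :
    tpw V (true :: w) g (i, i') (j, j') = V g i j * tpw V w g i' j' := rfl

theorem tpw_false (V : Γ →* Matrix n n k) (w : List Bool) (g : Γ) (i j : n) (i' j' : Idx n w) :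
    tpw V (false :: w) g (i, i') (j, j') = V g⁻¹ j i * tpw V w g i' j' := rfl

theorem tpw_nil (V : Γ →* Matrix n n k) (g : Γ) (i j : Idx n []) : tpw V [] g i j = 1 := by
  cases i
  cases j
  rfl

theorem exists_word (V : Γ →* Matrix n n k) {l : Type} {a : Fintype l} {b : DecidableEq l}
    {U : Γ →* Matrix l l k} (hU : IsTensorPower V l a b U) :
    ∃ (w : List Bool) (e : l ≃ Idx n w), ∀ g i j, U g i j = tpw V w g (e i) (e j) := by
  induction hU with
  | one => exact ⟨[], Equiv.refl _, fun g i j => rfl⟩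
  | mul _ ih =>
    obtain ⟨w, e, he⟩ := ih
    refine ⟨true :: w, (Equiv.prodCongr (Equiv.refl n) e : _ ≃ n × Idx n w), ?_⟩
    rintro g ⟨i, i'⟩ ⟨j, j'⟩
    change V g i j * _ = V g i j * tpw V w g (e i') (e j')
    rw [he]
  | mulDual _ ih =>
    obtain ⟨w, e, he⟩ := ih
    refine ⟨false :: w, (Equiv.prodCongr (Equiv.refl n) e : _ ≃ n × Idx n w), ?_⟩
    rintro g ⟨i, i'⟩ ⟨j, j'⟩
    change V g⁻¹ j i * _ = V g⁻¹ j i * tpw V w g (e i') (e j')
    rw [he]

variable {m ι : Type} [Fintype m] [DecidableEq m] [Fintype ι] [DecidableEq ι]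

/-- the matrix coefficients of a subquotient -/
theorem span_of_sub {W : Γ →* Matrix m m k} {U : Γ →* Matrix ι ι k} (h : IsSubquotient W U)
    (i j : m) : ∃ c : ι → ι → k, ∀ g, W g i j = ∑ p, ∑ q, c p q * U g p q := by
  obtain ⟨M, f, h1, h2⟩ := h
  have h3 : (Pi.single j 1 : m → k) ∈ M.map f := by rw [h2]; trivial
  obtain ⟨x, hx, hxf⟩ := h3
  refine ⟨fun p q => f (Pi.single p 1) i * x q, fun g => ?_⟩
  have h4 := (h1 g x hx).2
  rw [hxf] at h4
  have h5 : W g i j = (W g *ᵥ Pi.single j 1) i := by simp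
  rw [h5, ← h4]
  have h6 : f (U g *ᵥ x) = ∑ p, (U g *ᵥ x) p • f (Pi.single p 1) := by
    conv_lhs => rw [← Finset.univ_sum_single (U g *ᵥ x)]
    rw [map_sum]
    refine Finset.sum_congr rfl fun p _ => ?_
    rw [← map_smul]
    congr 1
    ext q
    simp [Pi.single_apply]
  rw [h6, Finset.sum_apply]
  refine Finset.sum_congr rfl fun p _ => ?_
  rw [Pi.smul_apply, smul_eq_mul, mulVec, dotProduct, Finset.sum_mul]
  exact Finset.sum_congr rfl fun q _ => by ring

/-- subquotients from matrix coefficients -/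
theorem sub_of_span {W : Γ →* Matrix m m k} (hW : IsIrreducible W) {U : Γ →* Matrix ι ι k}
    (h : ∀ i j, ∃ c : ι → ι → k, ∀ g, W g i j = ∑ p, ∑ q, c p q * U g p q) : IsSubquotient W U := by
  classical
  obtain ⟨i⟩ := hW.1
  set T0 : Finset (Γ → k) := Finset.univ.image (fun q : ι × ι => ent U q.1 q.2) with hT0
  have h3 : LinearMap.range (GO.row W i) ≤ ⨆ t ∈ T0, ET t := by
    rintro _ ⟨w, rfl⟩
    have h4 : GO.row W i w = ∑ j, w j • ent W i j := by
      funext x
      rw [Finset.sum_apply]
      simp [GO.row_apply, mulVec, dotProduct, ent, mul_comm]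
    rw [h4]
    refine Submodule.sum_mem _ fun j _ => Submodule.smul_mem _ _ ?_
    obtain ⟨c, hc⟩ := h i j
    have h5 : ent W i j = ∑ p, ∑ q, c p q • ent U p q := by
      funext g
      simp only [Finset.sum_apply, Pi.smul_apply, smul_eq_mul]
      exact hc g
    rw [h5]
    refine Submodule.sum_mem _ fun p _ => Submodule.sum_mem _ fun q _ =>
      Submodule.smul_mem _ _ ?_
    have h6 : ent U p q ∈ T0 := Finset.mem_image.2 ⟨(p, q), Finset.mem_univ _, rfl⟩
    have h7 : ET (ent U p q) ≤ ⨆ t ∈ T0, ET t := le_iSup₂_of_le (ent U p q) h6 le_rfl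
    exact h7 (Submodule.subset_span ⟨1, rt_one _⟩)
  obtain ⟨t, ht, E, hE, h8, h9⟩ := exists_step hW i T0 h3
  obtain ⟨⟨p, q⟩, -, rfl⟩ := Finset.mem_image.1 ht
  exact sub_of_step hW i U p q E hE h8 h9

end

end Pool.Agent.V8H88.UV
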