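import Pool.Agent.V8H88.UV.Ultra
import Pool.Agent.V8H88.UV.Wrd
import Pool.Agent.V8H88.GO.Grp

/-!
# Ultraproducts of representations, and a universal bound
-/

set_option autoImplicit false

namespace Pool.Agent.V8H88.UV

open Matrix Pool.Agent.V8H88.GO Polynomial

noncomputable section

section ul

variable {F : ℕ → Type} [∀ N, Field (F N)] {Γ : ℕ → Type} [∀ N, Group (Γ N)]
variable {n m : Type} [Fintype n] [DecidableEq n] [Fintype m] [DecidableEq m]

/-- the ultraproduct of representations -/
def ul (V : ∀ N, Γ N →* Matrix n n (F N)) : ((N : ℕ) → Γ N) →* Matrix n n (KK F) where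
  toFun g := Matrix.of fun i j => mk (fun N => V N (g N) i j)
  map_one' := by
    ext i j
    rw [Matrix.of_apply, Matrix.one_apply]
    have h : (fun N => V N ((1 : (N : ℕ) → Γ N) N) i j) = (if i = j then 1 else 0 : RR F) := by
      funext N
      rw [Pi.one_apply, map_one, Matrix.one_apply]
      split_ifs <;> rfl
    rw [h]
    split_ifs
    · exact map_one _
    · exact map_zero _
  map_mul' g h := by
    ext i j
    rw [Matrix.mul_apply, Matrix.of_apply]
    have h1 : (fun N => V N ((g * h) N) i j) =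
        ∑ l, (fun N => V N (g N) i l : RR F) * (fun N => V N (h N) l j : RR F) := by
      funext N
      rw [Pi.mul_apply, map_mul, Matrix.mul_apply, Finset.sum_apply]
      rfl
    rw [h1, map_sum]
    refine Finset.sum_congr rfl fun l _ => ?_
    rw [map_mul]
    rfl

theorem ul_apply (V : ∀ N, Γ N →* Matrix n n (F N)) (g : (N : ℕ) → Γ N) (i j : n) :
    ul V g i j = mk (fun N => V N (g N) i j) := rfl

theorem tpw_ul (V : ∀ N, Γ N →* Matrix n n (F N)) (w : List Bool) (g : (N : ℕ) → Γ N) :
    ∀ i j : Idx n w, tpw (ul V) w g i j = mk (fun N => tpw (V N) w (g N) i j) := by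
  induction w with
  | nil =>
    intro i j
    rw [tpw_nil]
    have h : (fun N => tpw (V N) [] (g N) i j) = (1 : RR F) := by
      funext N
      rw [tpw_nil]
      rfl
    rw [h, map_one]
  | cons b w ih =>
    rintro ⟨i, i'⟩ ⟨j, j'⟩
    cases b with
    | true =>
      rw [tpw_true, ih, ul_apply, ← map_mul]
      rfl
    | false =>
      rw [tpw_false, ih, ul_apply, ← map_mul]
      rfl

/-- the orbit of a nonzero vector spans, with a bounded number of terms -/
theorem orbit_span {k G : Type} [Field k] [Group G] {W : G →* Matrix m m k} (hW : IsIrreducible W)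
    {x : m → k} (hx : x ≠ 0) : ∃ (g : m → G) (c : m → m → k),
      ∀ j, (Pi.single j 1 : m → k) = ∑ i, c j i • (W (g i) *ᵥ x) := by
  set s : Set (m → k) := Set.range fun g => W g *ᵥ x with hs
  have htop : Submodule.span k s = ⊤ := by
    rcases hW.2 (Submodule.span k s) (by
      intro g y hy
      have h1 : (Submodule.span k s).map (W g).mulVecLin ≤ Submodule.span k s := by
        rw [Submodule.map_span, Submodule.span_le]
        rintro _ ⟨_, ⟨h, rfl⟩, rfl⟩
        refine Submodule.subset_span ⟨g * h, ?_⟩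
        rw [Matrix.mulVecLin_apply, mulVec_mulVec, ← map_mul]
      exact h1 ⟨y, hy, rfl⟩) with h | h
    · exfalso
      apply hx
      have h1 : x ∈ Submodule.span k s := Submodule.subset_span ⟨1, by
        change W 1 *ᵥ x = x
        rw [map_one, one_mulVec]⟩
      rw [h] at h1
      exact (Submodule.mem_bot k).1 h1
    · exact h
  obtain ⟨f, hf, hfs, -⟩ := Submodule.exists_fun_fin_finrank_span_eq k s
  have hcard : Module.finrank k (Submodule.span k s) = Fintype.card m := by
    rw [htop, finrank_top, Module.finrank_fintype_fun_eq_card]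
  let e : m ≃ Fin (Module.finrank k (Submodule.span k s)) :=
    (Fintype.equivFin m).trans (finCongr hcard.symm)
  choose g hg using hf
  have h2 : ∀ j : m, ∃ c : Fin (Module.finrank k (Submodule.span k s)) → k,
      ∑ i, c i • f i = (Pi.single j 1 : m → k) := by
    intro j
    rw [← Submodule.mem_span_range_iff_exists_fun, hfs, htop]
    trivial
  choose c hc using h2
  refine ⟨fun i => g (e i), fun j i => c j (e i), fun j => ?_⟩
  rw [← hc j, ← e.sum_comp]
  refine Finset.sum_congr rfl fun i _ => ?_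
  rw [← hg]

theorem ul_irreducible {W : ∀ N, Γ N →* Matrix m m (F N)} (hW : ∀ N, IsIrreducible (W N)) :
    IsIrreducible (ul W) := by
  classical
  refine ⟨(hW 0).1, fun M hM => ?_⟩
  by_cases h0 : M = ⊥
  · exact Or.inl h0
  right
  obtain ⟨x, hxM, hx0⟩ := (Submodule.ne_bot_iff M).1 h0
  choose X hX using fun i => mk_surjective (x i)
  have hXN : ∀ᶠ N in (UU : Filter ℕ), (fun i => X i N) ≠ 0 := by
    obtain ⟨i, hi⟩ := Function.ne_iff.1 hx0
    have h1 : ¬ ∀ᶠ N in (UU : Filter ℕ), X i N = 0 := by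
      rw [← mk_eq_zero, hX]
      exact hi
    filter_upwards [Ultrafilter.eventually_not.2 h1] with N hN h2
    exact hN (congrFun h2 i)
  have hch : ∀ N, ∃ (g : m → Γ N) (c : m → m → F N), (fun i => X i N) ≠ 0 →
      ∀ j, (Pi.single j 1 : m → F N) = ∑ i, c j i • (W N (g i) *ᵥ fun i => X i N) := by
    intro N
    by_cases h : (fun i => X i N) = 0
    · exact ⟨1, 0, fun h' => absurd h h'⟩
    · obtain ⟨g, c, hgc⟩ := orbit_span (hW N) h
      exact ⟨g, c, fun _ => hgc⟩
  choose g c hgc using hch
  have key : ∀ j, (Pi.single j 1 : m → KK F) =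
      ∑ i, mk (fun N => c N j i) • (ul W (fun N => g N i) *ᵥ x) := by
    intro j
    funext a
    have h1 : (∑ i, mk (fun N => c N j i) • (ul W (fun N => g N i) *ᵥ x)) a =
        mk (fun N => (∑ i, c N j i • (W N (g N i) *ᵥ fun i => X i N)) a) := by
      have h2 : (fun N => (∑ i, c N j i • (W N (g N i) *ᵥ fun i => X i N)) a) =
          ∑ i, (fun N => c N j i : RR F) * ∑ b, (fun N => W N (g N i) a b : RR F) * X b := by
        funext N
        rw [Finset.sum_apply, Finset.sum_apply]
        refine Finset.sum_congr rfl fun i _ => ?_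
        rw [Pi.smul_apply, smul_eq_mul, Pi.mul_apply, Finset.sum_apply]
        rfl
      rw [h2, map_sum, Finset.sum_apply]
      refine Finset.sum_congr rfl fun i _ => ?_
      rw [Pi.smul_apply, smul_eq_mul, map_mul, map_sum]
      congr 1
      rw [mulVec, dotProduct]
      refine Finset.sum_congr rfl fun b _ => ?_
      rw [map_mul, hX, ul_apply]
    rw [h1]
    have h3 : (Pi.single j 1 : m → KK F) a = mk (fun N => (Pi.single j 1 : m → F N) a) := by
      rw [Pi.single_apply]
      split_ifs with h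
      · rw [show (fun N => (Pi.single j 1 : m → F N) a) = (1 : RR F) by
          funext N; rw [Pi.single_apply, if_pos h]; rfl, map_one]
      · rw [show (fun N => (Pi.single j 1 : m → F N) a) = (0 : RR F) by
          funext N; rw [Pi.single_apply, if_neg h]; rfl, map_zero]
    rw [h3, mk_eq]
    filter_upwards [hXN] with N hN
    rw [← hgc N hN j]
  rw [eq_top_iff]
  rintro y -
  have h4 : y = ∑ j, y j • (Pi.single j 1 : m → KK F) := by
    funext a
    simp [Finset.sum_apply, Pi.single_apply]
  rw [h4]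
  refine Submodule.sum_mem _ fun j _ => Submodule.smul_mem _ _ ?_
  rw [key j]
  exact Submodule.sum_mem _ fun i _ => Submodule.smul_mem _ _ (hM _ _ hxM)

theorem ul_map (V : ∀ N, Γ N →* Matrix n n (F N)) (g : (N : ℕ) → Γ N) :
    ul V g = (Matrix.of fun i j => (fun N => V N (g N) i j : RR F)).map mk := rfl

theorem ul_nil (V : ∀ N, Γ N →* Matrix n n (F N)) (W : ∀ N, Γ N →* Matrix m m (F N)) (r : ℕ)
    (g : (N : ℕ) → Γ N) (h : ∀ N, (aeval (W N (g N)) (V N (g N)).charpoly) ^ r = 0) :
    (aeval (ul W g) (ul V g).charpoly) ^ r = 0 := by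
  set V' : Matrix n n (RR F) := Matrix.of fun i j => (fun N => V N (g N) i j : RR F) with hV'
  set W' : Matrix m m (RR F) := Matrix.of fun i j => (fun N => W N (g N) i j : RR F) with hW'
  have h1 : (aeval W' V'.charpoly) ^ r = 0 := by
    ext i j N
    have h2 : ((aeval W' V'.charpoly) ^ r).map (Pi.evalRingHom F N) =
        (aeval (W N (g N)) (V N (g N)).charpoly) ^ r := by
      have h3 : ((aeval W' V'.charpoly) ^ r).map (Pi.evalRingHom F N) =
          ((aeval W' V'.charpoly).map (Pi.evalRingHom F N)) ^ r :=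
        map_pow ((Pi.evalRingHom F N).mapMatrix) _ _
      rw [h3, map_aeval_matrix, ← Matrix.charpoly_map]
      rfl
    rw [h N] at h2
    exact congrFun (congrFun h2 i) j
  have h4 : ((aeval W' V'.charpoly) ^ r).map mk = (aeval (ul W g) (ul V g).charpoly) ^ r := by
    have h3 : ((aeval W' V'.charpoly) ^ r).map (mk (F := F)) =
        ((aeval W' V'.charpoly).map (mk (F := F))) ^ r :=
      map_pow ((mk (F := F)).mapMatrix) _ _
    rw [h3, map_aeval_matrix, ← Matrix.charpoly_map]
    rfl
  rw [← h4, h1]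
  exact map_zero ((mk (F := F)).mapMatrix)

/-- **Transfer.** -/
theorem transfer {V : ∀ N, Γ N →* Matrix n n (F N)} {W : ∀ N, Γ N →* Matrix m m (F N)}
    (hW : ∀ N, IsIrreducible (W N)) (w : List Bool) (h : IsSubquotient (ul W) (tpw (ul V) w)) :
    ∀ᶠ N in (UU : Filter ℕ), IsSubquotient (W N) (tpw (V N) w) := by
  classical
  choose c hc using fun i j => span_of_sub h i j
  choose C hC using fun i j p q => mk_surjective (c i j p q)
  have h1 : ∀ g : (N : ℕ) → Γ N, ∀ᶠ N in (UU : Filter ℕ), ∀ i j,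
      W N (g N) i j = ∑ p, ∑ q, C i j p q N * tpw (V N) w (g N) p q := by
    intro g
    rw [Filter.eventually_all]
    intro i
    rw [Filter.eventually_all]
    intro j
    have h2 := hc i j g
    have h3 : (∑ p, ∑ q, c i j p q * tpw (ul V) w g p q) =
        mk (fun N => ∑ p, ∑ q, C i j p q N * tpw (V N) w (g N) p q) := by
      have h4 : (fun N => ∑ p, ∑ q, C i j p q N * tpw (V N) w (g N) p q) =
          ∑ p, ∑ q, C i j p q * (fun N => tpw (V N) w (g N) p q : RR F) := by
        funext N
        rw [Finset.sum_apply]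
        refine Finset.sum_congr rfl fun p _ => ?_
        rw [Finset.sum_apply]
        rfl
      rw [h4, map_sum]
      refine Finset.sum_congr rfl fun p _ => ?_
      rw [map_sum]
      refine Finset.sum_congr rfl fun q _ => ?_
      rw [map_mul, hC, tpw_ul]
    rw [h3, ul_apply, mk_eq] at h2
    exact h2
  have h2 : ∀ᶠ N in (UU : Filter ℕ), ∀ h : Γ N, ∀ i j,
      W N h i j = ∑ p, ∑ q, C i j p q N * tpw (V N) w h p q := by
    by_contra hcon
    have h3 := Ultrafilter.eventually_not.2 hcon
    have h4 : ∀ N, ∃ h : Γ N, (¬ ∀ h : Γ N, ∀ i j,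
        W N h i j = ∑ p, ∑ q, C i j p q N * tpw (V N) w h p q) →
        ¬ ∀ i j, W N h i j = ∑ p, ∑ q, C i j p q N * tpw (V N) w h p q := by
      intro N
      by_cases h : ∀ h : Γ N, ∀ i j, W N h i j = ∑ p, ∑ q, C i j p q N * tpw (V N) w h p q
      · exact ⟨1, fun h' => absurd h h'⟩
      · obtain ⟨g, hg⟩ := not_forall.1 h
        exact ⟨g, fun _ => hg⟩
    choose g hg using h4
    obtain ⟨N, hN1, hN2⟩ := ((h1 g).and h3).exists
    exact hg N hN2 hN1
  filter_upwards [h2] with N hN
  exact sub_of_span (hW N) fun i j => ⟨fun p q => C i j p q N, fun g => hN g i j⟩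

end ul

section universal

/-- a counterexample to the bound `B` -/
structure Bad (P : ∀ (k Γ : Type) [Field k] [Group Γ] (d n : ℕ), (Γ →* Matrix (Fin d) (Fin d) k) →
    (Γ →* Matrix (Fin n) (Fin n) k) → Prop) (d n B : ℕ) : Type 1 where
  k : Type
  Γ : Type
  [field : Field k]
  [closed : IsAlgClosed k]
  [zero : CharZero k]
  [group : Group Γ]
  V : Γ →* Matrix (Fin d) (Fin d) k
  W : Γ →* Matrix (Fin n) (Fin n) k
  irr : IsIrreducible W
  prop : P k Γ d n V W
  none : ∀ w : List Bool, w.length ≤ B → ¬ IsSubquotient W (tpw V w)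

attribute [instance] Bad.field Bad.closed Bad.zero Bad.group

/-- **The universal bound**, for conditions stable under ultraproducts. -/
theorem bound (P : ∀ (k Γ : Type) [Field k] [Group Γ] (d n : ℕ), (Γ →* Matrix (Fin d) (Fin d) k) →
      (Γ →* Matrix (Fin n) (Fin n) k) → Prop) (d n : ℕ)
    (hP : ∀ (F Γ : ℕ → Type) [∀ N, Field (F N)] [∀ N, Group (Γ N)] [∀ N, IsAlgClosed (F N)]
      [∀ N, CharZero (F N)] (V : ∀ N, Γ N →* Matrix (Fin d) (Fin d) (F N))
      (W : ∀ N, Γ N →* Matrix (Fin n) (Fin n) (F N)), (∀ N, IsIrreducible (W N)) →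
      (∀ N, P (F N) (Γ N) d n (V N) (W N)) → ∃ w, IsSubquotient (ul W) (tpw (ul V) w)) :
    ∃ B : ℕ, ∀ (k Γ : Type) [Field k] [IsAlgClosed k] [CharZero k] [Group Γ]
      (V : Γ →* Matrix (Fin d) (Fin d) k) (W : Γ →* Matrix (Fin n) (Fin n) k),
      IsIrreducible W → P k Γ d n V W →
      ∃ w : List Bool, w.length ≤ B ∧ IsSubquotient W (tpw V w) := by
  by_contra hcon
  push Not at hcon
  have hbad : ∀ B, Nonempty (Bad P d n B) := by
    intro B
    obtain ⟨k, Γ, i1, i2, i3, i4, V, W, h1, h2, h3⟩ := hcon B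
    exact ⟨⟨k, Γ, V, W, h1, h2, h3⟩⟩
  let b : ∀ B, Bad P d n B := fun B => (hbad B).some
  obtain ⟨w, hw⟩ := hP (fun N => (b N).k) (fun N => (b N).Γ) (fun N => (b N).V)
    (fun N => (b N).W) (fun N => (b N).irr) (fun N => (b N).prop)
  have h1 := transfer (V := fun N => (b N).V) (W := fun N => (b N).W) (fun N => (b N).irr) w hw
  obtain ⟨N, h2, h3⟩ := (h1.and (large w.length)).exists
  exact (b N).none w h3 h2

/-- **All eigenvalues are common: the universal bound.** -/
theorem bound_all (d n : ℕ) : ∃ B : ℕ, ∀ (k Γ : Type) [Field k] [IsAlgClosed k] [CharZero k]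
    [Group Γ] (V : Γ →* Matrix (Fin d) (Fin d) k) (W : Γ →* Matrix (Fin n) (Fin n) k),
    IsIrreducible W → (∀ g, (aeval (W g) (V g).charpoly) ^ n = 0) →
    ∃ w : List Bool, w.length ≤ B ∧ IsSubquotient W (tpw V w) := by
  refine bound (fun k Γ _ _ d n V W => ∀ g, (aeval (W g) (V g).charpoly) ^ n = 0) d n ?_
  intro F Γ _ _ _ _ V W hW h
  obtain ⟨l, a, b, U, hU, hsub⟩ := all_dim (ul V) (ul W) (ul_irreducible hW)
    (fun g => ⟨n, ul_nil V W n g fun N => h N (g N)⟩)
  obtain ⟨w, e, he⟩ := exists_word (ul V) hU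
  refine ⟨w, sub_of_span (ul_irreducible hW) fun i j => ?_⟩
  obtain ⟨c, hc⟩ := span_of_sub hsub i j
  refine ⟨fun p q => c (e.symm p) (e.symm q), fun g => ?_⟩
  rw [hc g, ← e.sum_comp]
  refine Finset.sum_congr rfl fun p _ => ?_
  rw [← e.sum_comp]
  refine Finset.sum_congr rfl fun q _ => ?_
  change c p q * U g p q = c (e.symm (e p)) (e.symm (e q)) * tpw (ul V) w g (e p) (e q)
  rw [he, Equiv.symm_apply_apply, Equiv.symm_apply_apply]

end universal

end

end Pool.Agent.V8H88.UV
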