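import Pool.Agent.V8H88.UV.Trf
import Pool.Agent.V8H88.GO.Any

/-!
# One variety for all primes
-/

set_option autoImplicit false

namespace Pool.Agent.V8H88.UV

open NumberField IsDedekindDomain Pool.Agent.W401.Cheb Pool.Agent.V8H88.GO Polynomial

/-- `Cohomology` with the following additional properties of the cohomology groups `H^i(X)(j)` of smooth
projective varieties. `pure` is the Weil conjecture (Deligne): at the primes of good reduction the
complex absolute values of the roots of the Frobenius polynomial are `N(v) ^ (w / 2)`, with the weight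
`w = 2 j - i` (the Frobenius elements are arithmetic). `sum`: two cohomology groups of the same weight are
both subquotients of one cohomology group, for all `p` (if `i' = i + 2 c`, `j' = j + c`, `c ≥ 0`, then
`H^i(X)(j)` and `H^{i'}(Y)(j')` are direct summands of the cohomology group of degree `i'` of the disjoint
union of `X × P^c` and `Y`, twisted by `j'`). -/
structure PureCohomology (K : Type) [Field K] [NumberField K] extends Cohomology K where
  weight : Obj → ℤ
  pure : ∀ (x : Obj) (v : HeightOneSpectrum (𝓞 K)), v ∉ bad x → ∀ c : ℂ,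
    ((frob x v).map (algebraMap ℚ ℂ)).IsRoot c →
      ‖c‖ = (Ideal.absNorm v.asIdeal : ℝ) ^ ((weight x : ℝ) / 2)
  sum : ∀ x y, weight x = weight y → ∃ z, weight z = weight x ∧ ∀ (p : ℕ) [Fact p.Prime],
    IsSubquotient (rep p x) (rep p z) ∧ IsSubquotient (rep p y) (rep p z)

section main

variable {K : Type} [Field K] [NumberField K]
variable {E : Type} [Field E] [NumberField E] {n : ℕ}

/-- all eigenvalues are common at all elements of the Galois group -/
theorem nil_all (H : Cohomology K) (f : CompatibleSystem K E n) (x : H.Obj)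
    (S : Set (HeightOneSpectrum (𝓞 K))) (hS : FrobDense K S)
    (hroot : ∀ v ∈ S, ∃ N : ℕ, f.poly v ∣ ((H.frob x v).map (algebraMap ℚ E)) ^ N)
    (p : ℕ) [hpp : Fact p.Prime] (hp : p ∈ f.primes) (ι : E →+* PadicAlgCl p) (g : GK K) :
    (aeval (f.rep p ι g) (H.rep p x g).charpoly) ^ n = 0 := by
  set T : Set (HeightOneSpectrum (𝓞 K)) :=
    f.bad ∪ H.bad x ∪ {v : HeightOneSpectrum (𝓞 K) | (p : 𝓞 K) ∈ v.asIdeal} with hT
  have hTf : T.Finite :=
    (f.finite_bad.union (H.finite_bad x)).union (finite_over K p hpp.out)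
  set V := H.rep p x with hV
  set W := f.rep p ι with hW
  have h' : ∀ g ∈ {σ : GK K | ∃ v ∈ S, v ∉ T ∧ IsFrob v σ}, (aeval (W g) (V g).charpoly) ^ n = 0 := by
    rintro σ ⟨v, hv, hvT, hσ⟩
    rw [hT, Set.mem_union, Set.mem_union, not_or, not_or] at hvT
    obtain ⟨N, hN⟩ := hroot v hv
    have h1 := H.charpoly_frob p x v hvT.1.2 hvT.2 σ hσ
    have h2 := f.charpoly_frob p ι hp v hvT.1.1 hvT.2 σ hσ
    have h3 := Polynomial.map_dvd ι hN
    rw [Polynomial.map_pow, Polynomial.map_map, rat_comp, ← h1, ← h2] at h3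
    obtain ⟨T', hT'⟩ := h3
    have hnil : IsNilpotent (aeval (W σ) (V σ).charpoly) := by
      refine ⟨N, ?_⟩
      rw [← map_pow, hT', map_mul, Matrix.aeval_self_charpoly, zero_mul]
    have h4 := Matrix.isNilpotent_charpoly_sub_pow_of_isNilpotent hnil
    have h5 := sub_eq_zero.mp h4.eq_zero
    have h6 := Matrix.aeval_self_charpoly (aeval (W σ) (V σ).charpoly)
    rw [h5, map_pow, aeval_X, Fintype.card_fin] at h6
    exact h6
  have hmap : ∀ g, ((aeval (gW V W) (gV V W).charpoly) ^ n).map (evg V W g) =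
      (aeval (W g) (V g).charpoly) ^ n := by
    intro g
    have h6 : ((aeval (gW V W) (gV V W).charpoly) ^ n).map (evg V W g) =
        ((aeval (gW V W) (gV V W).charpoly).map (evg V W g)) ^ n :=
      map_pow ((evg V W g : RB V W →+* PadicAlgCl p).mapMatrix) _ _
    rw [h6]
    have h7 := map_aeval_matrix (evg V W g : RB V W →+* PadicAlgCl p) (gW V W) (gV V W).charpoly
    rw [← Matrix.charpoly_map] at h7
    have h8 : (aeval (gW V W) (gV V W).charpoly).map (evg V W g) =
        aeval (W g) (V g).charpoly := h7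
    rw [h8]
  rw [← hmap g]
  ext i j
  set b : RB V W := ((aeval (gW V W) (gV V W).charpoly) ^ n) i j with hb
  have hc : Continuous b.1 := RB_cont V W (H.continuous_rep p x) (f.continuous_rep p ι hp) b.1 b.2
  have key := Continuous.ext_on (hS T hTf) hc (continuous_const (y := (0 : PadicAlgCl p))) (by
    intro g hg
    have h9 := hmap g
    rw [h' g hg] at h9
    exact congrFun (congrFun h9 i) j)
  exact congrFun key g

/-- the tensor powers given by a word are subquotients of one cohomology group, for all `p` -/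
theorem exists_obj (H : Cohomology K) (x : H.Obj) (w : List Bool) :
    ∃ y : H.Obj, ∀ (p : ℕ) [Fact p.Prime], IsSubquotient (tpw (H.rep p x) w) (H.rep p y) := by
  induction w with
  | nil => exact H.unit
  | cons b w ih =>
    obtain ⟨y, hy⟩ := ih
    cases b with
    | true =>
      obtain ⟨z, hz⟩ := H.tensor x y
      exact ⟨z, fun p _ => (IsSubquotient.tensor (IsSubquotient.refl _) (hy p)).trans (hz p)⟩
    | false =>
      obtain ⟨x', hx'⟩ := H.dual x
      obtain ⟨z, hz⟩ := H.tensor x' y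
      exact ⟨z, fun p _ => (IsSubquotient.tensor (hx' p) (hy p)).trans (hz p)⟩

/-- the roots of a subquotient at one prime -/
theorem dvd_at (H : Cohomology K) (f : CompatibleSystem K E n) (p : ℕ) [Fact p.Prime]
    (hp : p ∈ f.primes) (ι : E →+* PadicAlgCl p) (x : H.Obj)
    (hx : IsSubquotient (f.rep p ι) (H.rep p x)) (v : HeightOneSpectrum (𝓞 K)) (h1 : v ∉ f.bad)
    (h2 : v ∉ H.bad x) (h3 : (p : 𝓞 K) ∉ v.asIdeal) :
    ∃ N : ℕ, f.poly v ∣ ((H.frob x v).map (algebraMap ℚ E)) ^ N := by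
  obtain ⟨σ, hσ⟩ := (Pool.Agent.W401.Frob.main K).1 v
  have e1 := H.charpoly_frob p x v h2 h3 σ hσ
  have e2 := f.charpoly_frob p ι hp v h1 h3 σ hσ
  refine dvd_pow_of_roots ι ?_ fun c hc => ?_
  · rintro h0
    rw [h0, Polynomial.map_zero] at e2
    exact (Matrix.charpoly_monic _).ne_zero e2
  · rw [← e2] at hc
    have h3 := hx.isRoot σ c hc
    rw [e1, ← rat_comp ι, ← Polynomial.map_map] at h3
    exact h3

theorem norm_ge_two (v : HeightOneSpectrum (𝓞 K)) : 2 ≤ Ideal.absNorm v.asIdeal := by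
  have h0 : Ideal.absNorm v.asIdeal ≠ 0 := by
    rw [Ne, Ideal.absNorm_eq_zero_iff]
    exact v.ne_bot
  have h1 : Ideal.absNorm v.asIdeal ≠ 1 := by
    rw [Ne, Ideal.absNorm_eq_one_iff]
    exact v.isPrime.ne_top
  omega

/-- the weight of the system -/
theorem weight_eq (H : PureCohomology K) (f : CompatibleSystem K E n) (p : ℕ) [hpp : Fact p.Prime]
    (hp : p ∈ f.primes) (ι : E →+* PadicAlgCl p) (x : H.Obj)
    (hx : IsSubquotient (f.rep p ι) (H.rep p x)) (q : ℕ) [hqq : Fact q.Prime]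
    (hq : q ∈ f.primes) (ι' : E →+* PadicAlgCl q) (y : H.Obj)
    (hy : IsSubquotient (f.rep q ι') (H.rep q y)) : H.weight x = H.weight y := by
  set T : Set (HeightOneSpectrum (𝓞 K)) := (f.bad ∪ H.bad x ∪ H.bad y) ∪
    ({v : HeightOneSpectrum (𝓞 K) | (p : 𝓞 K) ∈ v.asIdeal} ∪
    {v : HeightOneSpectrum (𝓞 K) | (q : 𝓞 K) ∈ v.asIdeal}) with hT
  have hTf : T.Finite := ((f.finite_bad.union (H.finite_bad x)).union (H.finite_bad y)).union
    ((finite_over K p hpp.out).union (finite_over K q hqq.out))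
  obtain ⟨σ, ⟨v, -, hvT, hσ⟩⟩ := (frobDense_univ K T hTf).nonempty
  rw [hT] at hvT
  simp only [Set.mem_union, not_or] at hvT
  obtain ⟨⟨⟨hv1, hv2⟩, hv3⟩, hv4, hv5⟩ := hvT
  obtain ⟨N1, hN1⟩ := dvd_at H.toCohomology f p hp ι x hx v hv1 hv2 hv4
  obtain ⟨N2, hN2⟩ := dvd_at H.toCohomology f q hq ι' y hy v hv1 hv3 hv5
  obtain ⟨j⟩ : Nonempty (E →+* ℂ) := inferInstance
  have hn : 0 < n := Fin.pos_iff_nonempty.2 (f.irreducible p ι hp).1
  have hdeg : (f.poly v).degree ≠ 0 := by
    have e2 := f.charpoly_frob p ι hp v hv1 hv4 σ hσ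
    have h2 := congrArg Polynomial.degree e2
    rw [Matrix.charpoly_degree_eq_dim, Fintype.card_fin, Polynomial.degree_map] at h2
    rw [← h2]
    exact_mod_cast hn.ne'
  obtain ⟨c, hc⟩ := IsAlgClosed.exists_root ((f.poly v).map j) (by rwa [Polynomial.degree_map])
  have hroot : ∀ (P : ℚ[X]) (N : ℕ), f.poly v ∣ (P.map (algebraMap ℚ E)) ^ N →
      (P.map (algebraMap ℚ ℂ)).IsRoot c := by
    rintro P N ⟨Q, hQ⟩
    have h1 := congrArg (fun R : E[X] => (R.map j).eval c) hQ
    simp only [Polynomial.map_pow, Polynomial.map_mul, Polynomial.map_map, eval_pow, eval_mul] at h1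
    rw [hc.eq_zero, zero_mul] at h1
    have h2 : eval c (P.map (j.comp (algebraMap ℚ E))) = 0 := IsReduced.eq_zero _ ⟨N, h1⟩
    rwa [show j.comp (algebraMap ℚ E) = algebraMap ℚ ℂ from RingHom.ext_rat _ _] at h2
  have h1 := H.pure x v hv2 c (hroot _ N1 hN1)
  have h2 := H.pure y v hv3 c (hroot _ N2 hN2)
  rw [h1] at h2
  have hN : (1 : ℝ) < (Ideal.absNorm v.asIdeal : ℝ) := by
    have := norm_ge_two v
    exact_mod_cast (show 1 < Ideal.absNorm v.asIdeal by omega)
  have h3 := (Real.rpow_right_inj (by linarith) hN.ne').1 h2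
  have h4 : (H.weight x : ℝ) = (H.weight y : ℝ) := by linarith
  exact_mod_cast h4

/-- **One object for all primes.** -/
theorem one_object (H : PureCohomology K) (f : CompatibleSystem K E n) (x : H.Obj)
    (S : Set (HeightOneSpectrum (𝓞 K))) (hS : FrobDense K S)
    (hroot : ∀ v ∈ S, ∃ N : ℕ, f.poly v ∣ ((H.frob x v).map (algebraMap ℚ E)) ^ N) :
    ∃ y : H.Obj, ∀ (p : ℕ) [Fact p.Prime], p ∈ f.primes → ∀ ι : E →+* PadicAlgCl p,
      IsSubquotient (f.rep p ι) (H.rep p y) := by
  classical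
  obtain ⟨B, hB⟩ := bound_all (H.dim x) n
  have hword : ∀ (p : ℕ) [Fact p.Prime], p ∈ f.primes → ∀ ι : E →+* PadicAlgCl p,
      ∃ w : List Bool, w.length ≤ B ∧ IsSubquotient (f.rep p ι) (tpw (H.rep p x) w) := by
    intro p _ hp ι
    exact hB (PadicAlgCl p) (GK K) (H.rep p x) (f.rep p ι) (f.irreducible p ι hp)
      (nil_all H.toCohomology f x S hS hroot p hp ι)
  choose y hy using exists_obj H.toCohomology x
  -- the words which are used
  set used : Set (List Bool) := {w | w.length ≤ B ∧ ∃ (p : ℕ) (_ : Fact p.Prime)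
    (ι : E →+* PadicAlgCl p), p ∈ f.primes ∧ IsSubquotient (f.rep p ι) (tpw (H.rep p x) w)} with hused
  have hfin : used.Finite := (List.finite_length_le Bool B).subset fun w hw => hw.1
  rcases used.eq_empty_or_nonempty with h0 | ⟨w0, hw0⟩
  · refine ⟨x, fun p _ hp ι => ?_⟩
    exfalso
    obtain ⟨w, hw, hw'⟩ := hword p hp ι
    have : w ∈ used := ⟨hw, p, inferInstance, ι, hp, hw'⟩
    rw [h0] at this
    exact this
  have hwt : ∀ w ∈ used, H.weight (y w) = H.weight (y w0) := by
    rintro w ⟨-, p, _, ι, hp, hw⟩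
    obtain ⟨-, q, _, ι', hq, hw'⟩ := hw0
    exact weight_eq H f p hp ι (y w) (hw.trans (hy w p)) q hq ι' (y w0) (hw'.trans (hy w0 q))
  have key : ∀ s : Finset (List Bool), (∀ w ∈ s, w ∈ used) → ∃ z : H.Obj,
      H.weight z = H.weight (y w0) ∧ ∀ w ∈ s, ∀ (p : ℕ) [Fact p.Prime],
        IsSubquotient (tpw (H.rep p x) w) (H.rep p z) := by
    intro s
    induction s using Finset.induction_on with
    | empty => exact fun _ => ⟨y w0, rfl, fun w hw => absurd hw (Finset.notMem_empty w)⟩
    | insert w s hw ih =>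
      intro hs
      obtain ⟨z, hz, hz'⟩ := ih fun w' hw' => hs w' (Finset.mem_insert_of_mem hw')
      have h1 := hwt w (hs w (Finset.mem_insert_self _ _))
      obtain ⟨z', hz1, hz2⟩ := H.sum (y w) z (by rw [h1, hz])
      refine ⟨z', by rw [hz1, h1], fun w' hw' p _ => ?_⟩
      rcases Finset.mem_insert.1 hw' with rfl | h
      · exact (hy w' p).trans (hz2 p).1
      · exact (hz' w' h p).trans (hz2 p).2
  obtain ⟨z, -, hz⟩ := key hfin.toFinset fun w hw => hfin.mem_toFinset.1 hw
  refine ⟨z, fun p _ hp ι => ?_⟩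
  obtain ⟨w, hw, hw'⟩ := hword p hp ι
  exact hw'.trans (hz w (hfin.mem_toFinset.2 ⟨hw, p, inferInstance, ι, hp, hw'⟩) p)

end main

end Pool.Agent.V8H88.UV
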