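import Mathlib

/-!
# Ultraproducts of algebraically closed fields of characteristic zero
-/

set_option autoImplicit false

namespace Pool.Agent.V8H88.UV

noncomputable section

variable (F : ℕ → Type) [∀ N, Field (F N)]

/-- The product ring. -/
abbrev RR : Type := (N : ℕ) → F N

/-- The ultrafilter. -/
def UU : Ultrafilter ℕ := Filter.hyperfilter ℕ

/-- The ideal of the ultraproduct. -/
def II : Ideal (RR F) where
  carrier := {x | ∀ᶠ N in (UU : Filter ℕ), x N = 0}
  add_mem' := by
    intro x y hx hy
    filter_upwards [hx, hy] with p h1 h2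
    rw [Pi.add_apply, h1, h2, add_zero]
  zero_mem' := Filter.Eventually.of_forall fun p => rfl
  smul_mem' := by
    intro c x hx
    filter_upwards [hx] with p h1
    rw [smul_eq_mul, Pi.mul_apply, h1, mul_zero]

variable {F}

theorem mem_II {x : RR F} : x ∈ II F ↔ ∀ᶠ N in (UU : Filter ℕ), x N = 0 := Iff.rfl

instance II_max : (II F).IsMaximal := by
  rw [Ideal.isMaximal_iff]
  constructor
  · intro h
    rw [mem_II] at h
    have h1 : ∀ᶠ p in (UU : Filter ℕ), False := by
      filter_upwards [h] with p hp
      exact one_ne_zero hp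
    exact (Filter.eventually_false_iff_eq_bot.mp h1 |> UU.neBot.ne)
  · intro J x hJ hx hxJ
    have h1 : ∀ᶠ p in (UU : Filter ℕ), x p ≠ 0 := by
      rw [mem_II] at hx
      exact Ultrafilter.eventually_not.mpr hx
    have h2 : (1 - x⁻¹ * x : RR F) ∈ II F := by
      rw [mem_II]
      filter_upwards [h1] with p hp
      rw [Pi.sub_apply, Pi.mul_apply, Pi.inv_apply, inv_mul_cancel₀ hp]
      exact sub_self 1
    have h3 := J.add_mem (hJ h2) (J.mul_mem_left x⁻¹ hxJ)
    rwa [sub_add_cancel] at h3

variable (F) in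
/-- The ultraproduct. -/
def KK : Type := RR F ⧸ II F

instance : Field (KK F) := Ideal.Quotient.field (II F)

/-- The projection. -/
def mk : RR F →+* KK F := Ideal.Quotient.mk (II F)

theorem mk_surjective : Function.Surjective (mk (F := F)) := Ideal.Quotient.mk_surjective

theorem mk_eq_zero {x : RR F} : mk x = 0 ↔ ∀ᶠ N in (UU : Filter ℕ), x N = 0 :=
  Ideal.Quotient.eq_zero_iff_mem

theorem mk_eq {x y : RR F} : mk x = mk y ↔ ∀ᶠ N in (UU : Filter ℕ), x N = y N := by
  rw [← sub_eq_zero, ← map_sub, mk_eq_zero]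
  exact Filter.eventually_congr (Filter.Eventually.of_forall fun p => sub_eq_zero)

instance [∀ N, CharZero (F N)] : CharZero (KK F) := by
  refine charZero_of_inj_zero fun n hn => ?_
  by_contra h0
  have h1 : mk (n : RR F) = 0 := by rw [map_natCast]; exact hn
  rw [mk_eq_zero] at h1
  obtain ⟨N, hN⟩ := h1.exists
  have h7 : ((n : ℕ) : F N) = 0 := hN
  exact h0 (Nat.cast_eq_zero.1 h7)

instance [∀ N, IsAlgClosed (F N)] : IsAlgClosed (KK F) := by
  refine IsAlgClosed.of_exists_root _ fun f hf hirr => ?_
  have hdeg : 0 < f.natDegree := hirr.natDegree_pos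
  choose c hc using fun j => mk_surjective (f.coeff j)
  have h1 : ∀ p : ℕ, ∃ x : F p,
      x ^ f.natDegree + ∑ j ∈ Finset.range f.natDegree, c j p * x ^ j = 0 := by
    intro p
    set g : Polynomial (F p) := Polynomial.X ^ f.natDegree +
      ∑ j ∈ Finset.range f.natDegree, Polynomial.C (c j p) * Polynomial.X ^ j with hg
    have hgd : g.degree = f.natDegree := by
      have h2 : (∑ j ∈ Finset.range f.natDegree,
          Polynomial.C (c j p) * Polynomial.X ^ j : Polynomial (F p)).degree <
          (Polynomial.X ^ f.natDegree : Polynomial (F p)).degree := by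
        rw [Polynomial.degree_X_pow]
        refine (Polynomial.degree_sum_le _ _).trans_lt ?_
        rw [Finset.sup_lt_iff (by exact WithBot.bot_lt_coe _)]
        intro j hj
        refine (Polynomial.degree_C_mul_X_pow_le j _).trans_lt ?_
        exact_mod_cast Finset.mem_range.mp hj
      rw [hg, Polynomial.degree_add_eq_left_of_degree_lt h2, Polynomial.degree_X_pow]
    obtain ⟨x, hx⟩ := IsAlgClosed.exists_root g (by
      rw [hgd]
      exact_mod_cast hdeg.ne')
    refine ⟨x, ?_⟩
    rw [Polynomial.IsRoot, hg] at hx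
    simpa [Polynomial.eval_finsetSum] using hx
  choose x hx using h1
  refine ⟨mk x, ?_⟩
  rw [Polynomial.eval_eq_sum_range, Finset.sum_range_succ, hf.coeff_natDegree, one_mul, add_comm]
  have h2 : mk (x ^ f.natDegree + ∑ j ∈ Finset.range f.natDegree, c j * x ^ j) = 0 := by
    have : x ^ f.natDegree + ∑ j ∈ Finset.range f.natDegree, c j * x ^ j = 0 := by
      funext p
      have := hx p
      simpa [Finset.sum_apply] using this
    rw [this, map_zero]
  rw [map_add, map_pow, map_sum] at h2
  rw [← h2]
  congr 1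
  refine Finset.sum_congr rfl fun j _ => ?_
  rw [map_mul, map_pow, hc]

/-- large indices -/
theorem large (N0 : ℕ) : ∀ᶠ N in (UU : Filter ℕ), N0 ≤ N := by
  have h : (Set.Iio N0)ᶜ ∈ (UU : Filter ℕ) :=
    Filter.compl_mem_hyperfilter_of_finite (Set.finite_Iio N0)
  filter_upwards [h] with N hN
  exact not_lt.1 hN

end

end Pool.Agent.V8H88.UV
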